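import Pool.Agent.Helper57.PC.KeyF
import Pool.Agent.Helper57.PC.Final

/-! Digits, functions of few digits. -/

namespace Pool.Agent.Helper57.LJ

open Finset
open Pool.Agent.Helper57.PC (Fr ch Wn e)

/-- the digit of `n` in base `b` at position `q` -/
def dig (b q n : ℕ) : ℕ := n / b ^ q % b

/-- `g n` depends only on the digits of `n` at the positions in `Q` -/
def DependsOn {α : Type*} (b : ℕ) (Q : Finset ℕ) (g : ℕ → α) : Prop :=
  ∀ m n, (∀ q ∈ Q, dig b q m = dig b q n) → g m = g n

end Pool.Agent.Helper57.LJ
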