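import Pool.Agent.Helper57.LJ.Final

/-! Finite form with the maximum. -/

namespace Pool.Agent.Helper57.LJ

open Finset Filter
open Pool.Agent.Helper25.RC (repF rep below mem_below below_subset_range repF_below_le)

/-- mean square and maximum at one scale -/
theorem local_choice_max (b : ℕ) (hb : 2 ≤ b) (w : ℕ) (ε δ : ℝ) (hε : 0 < ε) (hδ : 0 < δ) :
    ∃ c : ℝ, 0 < c ∧ ∃ K₀ : ℕ, ∀ K ≥ K₀, ∀ (A D : Set ℕ) (f : ℕ → ℕ),
      (∀ n ∈ D, f n ≤ n ∧ f n ∈ A ∧ n - f n ∈ A) → δ * (b : ℝ) ^ K ≤ #(below D (b ^ K)) →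
      ∀ (J : ℕ → ℕ → ℕ) (Q : ℕ → Finset ℕ), (∀ i < K, #(Q i) ≤ w ∧ DependsOn b (Q i) (J i)) →
        (1 / b + ε) * K * #(below D (b ^ K)) ≤
          ∑ n ∈ below D (b ^ K), (#{i ∈ range K | dig b i (f n) = J i n} : ℝ) →
      ((b : ℝ) ^ K) ^ (1 + 3 * c) ≤ ∑ n ∈ range (2 * b ^ K), (rep A n : ℝ) ^ 2 ∧
        ∃ n < 2 * b ^ K, ((b : ℝ) ^ K) ^ c ≤ rep A n := by
  obtain ⟨c, hc, K₀, h⟩ := local_choice b hb w ε δ hε hδ
  have hb1 : (1 : ℝ) < b := by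
    have : 1 < b := by omega
    exact_mod_cast this
  have hc3 : 0 < c / 3 := by positivity
  have ht : Tendsto (fun K : ℕ => ((b : ℝ) ^ K) ^ (c / 3)) atTop atTop :=
    (tendsto_rpow_atTop hc3).comp (tendsto_pow_atTop_atTop_of_one_lt hb1)
  obtain ⟨K₁, hK₁⟩ := eventually_atTop.1 (ht.eventually (eventually_ge_atTop (2 : ℝ)))
  refine ⟨c / 3, hc3, max K₀ K₁, fun K hK A D f hf hD J Q hQ hhit => ?_⟩
  have hKK₀ : K₀ ≤ K := (le_max_left _ _).trans hK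
  have hx2 := hK₁ K ((le_max_right _ _).trans hK)
  set x : ℝ := (b : ℝ) ^ K with hx
  have hx0 : 0 < x := by positivity
  have h1 := h K hKK₀ (below A (b ^ K)) (below D (b ^ K)) f J Q (below_subset_range _ _)
    (below_subset_range _ _) hD (fun n hn => by
      obtain ⟨h2, h3⟩ := mem_below.1 hn
      obtain ⟨h4, h5, h6⟩ := hf n h3
      exact ⟨h4, mem_below.2 ⟨by omega, h5⟩, mem_below.2 ⟨by omega, h6⟩⟩) hQ hhit
  have h2 : x ^ (1 + 3 * (c / 3)) ≤ ∑ n ∈ range (2 * b ^ K), (rep A n : ℝ) ^ 2 := by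
    rw [show 1 + 3 * (c / 3) = 1 + c by ring]
    refine h1.trans (Finset.sum_le_sum fun n _ => ?_)
    have : (repF (below A (b ^ K)) n : ℝ) ≤ rep A n := by exact_mod_cast repF_below_le A (b ^ K) n
    exact pow_le_pow_left₀ (Nat.cast_nonneg _) this 2
  refine ⟨h2, ?_⟩
  by_contra hcon
  push Not at hcon
  have hpos : 0 < 2 * b ^ K := by
    have : 0 < b ^ K := by positivity
    omega
  have h3 : ∑ n ∈ range (2 * b ^ K), (rep A n : ℝ) ^ 2 <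
      ∑ _n ∈ range (2 * b ^ K), (x ^ (c / 3)) ^ 2 := by
    refine Finset.sum_lt_sum_of_nonempty ⟨0, mem_range.2 hpos⟩ fun n hn => ?_
    exact pow_lt_pow_left₀ (hcon n (mem_range.1 hn)) (Nat.cast_nonneg _) two_ne_zero
  rw [Finset.sum_const, card_range, nsmul_eq_mul] at h3
  push_cast at h3
  rw [← hx] at h3
  have h4 : x ^ (1 + 3 * (c / 3)) = x * (x ^ (c / 3) * (x ^ (c / 3)) ^ 2) := by
    rw [Real.rpow_add hx0, Real.rpow_one, mul_comm (3 : ℝ), Real.rpow_mul hx0.le]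
    congr 1
    rw [← pow_succ']
    norm_num
  rw [h4] at h2
  have h5 : x * (2 * (x ^ (c / 3)) ^ 2) ≤ x * (x ^ (c / 3) * (x ^ (c / 3)) ^ 2) :=
    mul_le_mul_of_nonneg_left (mul_le_mul_of_nonneg_right hx2 (sq_nonneg _)) hx0.le
  linarith

end Pool.Agent.Helper57.LJ
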