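import Pool.Agent.Helper57.LJ.Defs

/-! Exponential growth of the energy of a set of pairs with many correlated characters. -/

namespace Pool.Agent.Helper57.LJ

open Finset
open Pool.Agent.Helper57.PC (Fr ch norm_ch ch_add ch_nat_add ch_pow ch_one_ne ch_zero)
open Pool.Agent.Helper25.RC (repF)

lemma ch_mul (m n : ℕ) (θ : Fr) : ch (m * n) θ = ch m (n • θ) := by
  unfold ch
  rw [mul_smul]

lemma ch_of_smul_zero {n : ℕ} {θ : Fr} (h : n • θ = 0) : ch n θ = 1 := by
  unfold ch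
  rw [h]
  simp

/-- sums over one digit -/
lemma sum_ch_level {b i : ℕ} {ψ : Fr} (h1 : b ^ (i + 1) • ψ = 0) (h2 : b ^ i • ψ ≠ 0) (a : ℕ) :
    ∑ t ∈ range b, ch (a + t * b ^ i) ψ = 0 := by
  have e : ∀ t ∈ range b, ch (a + t * b ^ i) ψ = ch a ψ * ch 1 (b ^ i • ψ) ^ t := by
    intro t _
    rw [ch_nat_add, ch_mul, ch_pow t]
  rw [Finset.sum_congr rfl e, ← Finset.mul_sum]
  have h3 : ch 1 (b ^ i • ψ) ≠ 1 := ch_one_ne h2
  have h4 : ch 1 (b ^ i • ψ) ^ b = 1 := by
    rw [← ch_pow b]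
    apply ch_of_smul_zero
    rw [smul_smul, ← pow_succ', h1]
  rw [geom_sum_eq h3, h4, sub_self, zero_div, mul_zero]

/-- splitting off the top digit -/
lemma sum_range_pow_succ (b K : ℕ) (hb : 0 < b) (f : ℕ → ℝ) :
    ∑ a ∈ range (b ^ (K + 1)), f a = ∑ a ∈ range (b ^ K), ∑ t ∈ range b, f (a + t * b ^ K) := by
  rw [← Finset.sum_product']
  have hK : 0 < b ^ K := by positivity
  refine Finset.sum_nbij' (fun a => (a % b ^ K, a / b ^ K)) (fun p => p.1 + p.2 * b ^ K)
    ?_ ?_ ?_ ?_ ?_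
  · intro a ha
    rw [mem_range] at ha
    rw [mem_product, mem_range, mem_range]
    refine ⟨Nat.mod_lt _ hK, ?_⟩
    rw [Nat.div_lt_iff_lt_mul hK, mul_comm]
    rwa [pow_succ] at ha
  · intro p hp
    rw [mem_product, mem_range, mem_range] at hp
    rw [mem_range, pow_succ]
    have h1 : (p.2 + 1) * b ^ K ≤ b * b ^ K := Nat.mul_le_mul_right _ hp.2
    nlinarith [hp.1]
  · intro a _
    have := Nat.mod_add_div a (b ^ K)
    rw [mul_comm] at this
    exact this
  · intro p hp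
    rw [mem_product, mem_range, mem_range] at hp
    ext
    · rw [Nat.add_mul_mod_self_right, Nat.mod_eq_of_lt hp.1]
    · rw [Nat.add_mul_div_right _ _ hK, Nat.div_eq_of_lt hp.1, zero_add]
  · intro a _
    simp only
    have := Nat.mod_add_div a (b ^ K)
    rw [mul_comm] at this
    rw [this]

/-- the mean of a Riesz product -/
lemma prod_mean (b : ℕ) (hb : 0 < b) (w : ℕ → ℂ) (ψ : ℕ → Fr) (K : ℕ) :
    ∀ I ⊆ range K, (∀ i ∈ I, b ^ (i + 1) • ψ i = 0 ∧ b ^ i • ψ i ≠ 0) →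
    ∑ a ∈ range (b ^ K), ∏ i ∈ I, (1 + (w i * ch a (ψ i)).re) = (b : ℝ) ^ K := by
  induction K with
  | zero =>
    intro I hI _
    have : I = ∅ := Finset.subset_empty.1 (by simpa using hI)
    rw [this]
    simp
  | succ K ih =>
    intro I hI hψ
    rw [sum_range_pow_succ b K hb]
    have hsub : I.erase K ⊆ range K := by
      intro i hi
      rw [Finset.mem_erase] at hi
      have := mem_range.1 (hI hi.2)
      rw [mem_range]
      omega
    have hψ' : ∀ i ∈ I.erase K, b ^ (i + 1) • ψ i = 0 ∧ b ^ i • ψ i ≠ 0 := fun i hi =>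
      hψ i (Finset.mem_of_mem_erase hi)
    have hper : ∀ i ∈ I.erase K, ∀ a t, ch (a + t * b ^ K) (ψ i) = ch a (ψ i) := by
      intro i hi a t
      have h1 := mem_range.1 (hsub hi)
      rw [ch_nat_add, ch_of_smul_zero (n := t * b ^ K), mul_one]
      obtain ⟨d, hd⟩ := Nat.exists_eq_add_of_lt h1
      have e : t * b ^ K = (t * b ^ d) * b ^ (i + 1) := by
        rw [hd]
        ring
      rw [e, mul_smul, (hψ' i hi).1, smul_zero]
    have key : ∀ a ∈ range (b ^ K), ∑ t ∈ range b, ∏ i ∈ I, (1 + (w i * ch (a + t * b ^ K) (ψ i)).re)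
        = b * ∏ i ∈ I.erase K, (1 + (w i * ch a (ψ i)).re) := by
      intro a _
      by_cases hK : K ∈ I
      · have e1 : ∀ t ∈ range b, ∏ i ∈ I, (1 + (w i * ch (a + t * b ^ K) (ψ i)).re) =
            (1 + (w K * ch (a + t * b ^ K) (ψ K)).re) *
              ∏ i ∈ I.erase K, (1 + (w i * ch a (ψ i)).re) := by
          intro t _
          rw [← Finset.mul_prod_erase I _ hK]
          congr 1
          refine Finset.prod_congr rfl fun i hi => ?_
          rw [hper i hi]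
        rw [Finset.sum_congr rfl e1, ← Finset.sum_mul, Finset.sum_add_distrib, Finset.sum_const,
          card_range, nsmul_eq_mul, mul_one, ← Complex.re_sum, ← Finset.mul_sum,
          sum_ch_level (hψ K hK).1 (hψ K hK).2, mul_zero, Complex.zero_re, add_zero]
      · rw [Finset.erase_eq_of_notMem hK]
        have e1 : ∀ t ∈ range b, ∏ i ∈ I, (1 + (w i * ch (a + t * b ^ K) (ψ i)).re) =
            ∏ i ∈ I, (1 + (w i * ch a (ψ i)).re) := by
          intro t _
          refine Finset.prod_congr rfl fun i hi => ?_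
          rw [hper i (by rw [Finset.mem_erase]; exact ⟨fun h => hK (h ▸ hi), hi⟩)]
        rw [Finset.sum_congr rfl e1, Finset.sum_const, card_range, nsmul_eq_mul]
    rw [Finset.sum_congr rfl key, ← Finset.mul_sum, ih _ hsub hψ']
    rw [pow_succ]
    ring

lemma exp_le_one_add {u : ℝ} (h : |u| ≤ 1 / 4) : Real.exp (u - 4 * u ^ 2) ≤ 1 + u := by
  obtain ⟨h1, h2⟩ := abs_le.1 h
  have hv : |u - 4 * u ^ 2| ≤ 1 := by
    rw [abs_le]
    constructor <;> nlinarith
  have h3 := Real.abs_exp_sub_one_sub_id_le hv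
  have h4 := (abs_le.1 h3).2
  have h5 : (u - 4 * u ^ 2) ^ 2 ≤ 4 * u ^ 2 := by
    have : (u - 4 * u ^ 2) ^ 2 = u ^ 2 * (1 - 4 * u) ^ 2 := by ring
    rw [this]
    have h6 : (1 - 4 * u) ^ 2 ≤ 4 := by nlinarith
    nlinarith [sq_nonneg u]
  linarith

/-- Exponential growth of the energy. -/
theorem exp_pairs (b K : ℕ) (hb : 2 ≤ b) (S : Finset ℕ) (hS : S ⊆ range (b ^ K))
    (G : Finset (ℕ × ℕ)) (hG : G ⊆ S ×ˢ S) (hG0 : G.Nonempty) (I : Finset ℕ) (hI : I ⊆ range K)
    (θ ψ : ℕ → Fr) (hψ : ∀ i ∈ I, b ^ (i + 1) • ψ i = 0 ∧ b ^ i • ψ i ≠ 0) :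
    (#G : ℝ) ^ 4 * Real.exp (1 / 16 * ∑ i ∈ I,
      (‖∑ p ∈ G, ch (p.1 + p.2) (θ i) * ch p.1 (ψ i)‖ / #G) ^ 4) ≤
      4 * b ^ K * b ^ (K + 1) * (∑ n ∈ range (2 * b ^ K), ((repF S n : ℕ) : ℝ) ^ 2) ^ 2 := by
  classical
  set T : ℝ := (#G : ℝ) with hT
  have hT0 : 0 < T := by
    rw [hT]
    exact_mod_cast Finset.card_pos.2 hG0
  set X : ℕ → ℕ × ℕ → ℂ := fun i q => ch (q.1 + q.2) (θ i) * ch q.1 (ψ i) with hX
  have hX1 : ∀ i q, ‖X i q‖ = 1 := by
    intro i q
    simp only [hX]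
    rw [norm_mul, norm_ch, norm_ch, one_mul]
  have hXadd : ∀ i p q, X i (p + q) = X i p * X i q := by
    intro i p q
    simp only [hX, Prod.fst_add, Prod.snd_add]
    rw [show p.1 + q.1 + (p.2 + q.2) = (p.1 + p.2) + (q.1 + q.2) by ring,
      ch_nat_add (p.1 + p.2) (q.1 + q.2), ch_nat_add p.1 q.1]
    ring
  set F : ℕ → ℂ := fun i => ∑ p ∈ G, X i p with hF
  have hFT : ∀ i, ‖F i‖ ≤ T := by
    intro i
    refine (norm_sum_le _ _).trans (le_of_eq ?_)
    rw [Finset.sum_congr rfl fun p _ => hX1 i p, Finset.sum_const, nsmul_eq_mul, mul_one]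
  have hω : ∀ i, ∃ w : ℂ, ‖w‖ ≤ 1 ∧ w * F i ^ 2 = ((‖F i‖ ^ 2 : ℝ) : ℂ) := by
    intro i
    by_cases h0 : F i = 0
    · exact ⟨0, by simp, by simp [h0]⟩
    · refine ⟨((‖F i‖ ^ 2 : ℝ) : ℂ) / F i ^ 2, ?_, div_mul_cancel₀ _ (pow_ne_zero 2 h0)⟩
      rw [norm_div, Complex.norm_real, Real.norm_of_nonneg (sq_nonneg _), norm_pow,
        div_self (pow_ne_zero 2 (norm_ne_zero_iff.2 h0))]
  choose w hw1 hw2 using hω
  set ρ : ℕ → ℝ := fun i => (‖F i‖ / T) ^ 2 with hρ
  have hρ0 : ∀ i, 0 ≤ ρ i := fun i => sq_nonneg _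
  have hρ1 : ∀ i, ρ i ≤ 1 := by
    intro i
    simp only [hρ]
    refine pow_le_one₀ (by positivity) ?_
    rw [div_le_one hT0]
    exact hFT i
  set y : ℕ × ℕ → ℝ := fun q =>
    1 / 2 * ∑ i ∈ I, (ρ i / 8 * (w i * X i q).re - 4 * (ρ i / 8) ^ 2) with hy
  set P : ℕ → ℕ → ℝ := fun m c => ∏ i ∈ I, (1 + ((ρ i / 8 * w i * ch m (θ i)) * ch c (ψ i)).re)
    with hP
  have hre : ∀ i q, |(w i * X i q).re| ≤ 1 := by
    intro i q
    refine (Complex.abs_re_le_norm _).trans ?_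
    rw [norm_mul, hX1, mul_one]
    exact hw1 i
  have hfac : ∀ i m c, ((ρ i / 8 * w i * ch m (θ i)) * ch c (ψ i)).re =
      ρ i / 8 * (w i * (ch m (θ i) * ch c (ψ i))).re := by
    intro i m c
    have : ((ρ i / 8 * w i * ch m (θ i)) * ch c (ψ i) : ℂ) =
        ((ρ i / 8 : ℝ) : ℂ) * (w i * (ch m (θ i) * ch c (ψ i))) := by
      push_cast
      ring
    rw [this, Complex.re_ofReal_mul]
  have hsmall : ∀ i m c, |ρ i / 8 * (w i * (ch m (θ i) * ch c (ψ i))).re| ≤ ρ i / 8 := by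
    intro i m c
    rw [abs_mul, abs_of_nonneg (by have := hρ0 i; positivity)]
    refine mul_le_of_le_one_right (by have := hρ0 i; positivity) ?_
    refine (Complex.abs_re_le_norm _).trans ?_
    rw [norm_mul, norm_mul, norm_ch, norm_ch, mul_one, mul_one]
    exact hw1 i
  have hP0 : ∀ m c, 0 ≤ P m c := by
    intro m c
    refine Finset.prod_nonneg fun i _ => ?_
    rw [hfac]
    have h1 := (abs_le.1 (hsmall i m c)).1
    have h2 := hρ1 i
    linarith
  have hexp : ∀ q : ℕ × ℕ, Real.exp (2 * y q) ≤ P (q.1 + q.2) q.1 := by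
    intro q
    have e : 2 * y q = ∑ i ∈ I, (ρ i / 8 * (w i * X i q).re - 4 * (ρ i / 8) ^ 2) := by
      simp only [hy]
      ring
    rw [e, Real.exp_sum]
    simp only [hP]
    refine Finset.prod_le_prod (fun i _ => (Real.exp_pos _).le) fun i _ => ?_
    rw [hfac]
    have h1 := hsmall i (q.1 + q.2) q.1
    have h2 := hρ1 i
    have h3 := hρ0 i
    refine le_trans ?_ (exp_le_one_add (h1.trans (by linarith)))
    apply Real.exp_le_exp.2
    have h4 : (ρ i / 8 * (w i * (ch (q.1 + q.2) (θ i) * ch q.1 (ψ i))).re) ^ 2 ≤ (ρ i / 8) ^ 2 := by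
      rw [← sq_abs]
      exact pow_le_pow_left₀ (abs_nonneg _) h1 2
    simp only [hX]
    linarith
  -- the sum over pairs of elements of G
  set M : ℝ := 1 / 32 * ∑ i ∈ I, ρ i ^ 2 with hM
  have hmean : ∑ p ∈ G ×ˢ G, y (p.1 + p.2) = T ^ 2 * M := by
    have h1 : ∀ i, ∑ p ∈ G ×ˢ G, (w i * X i (p.1 + p.2)).re = ‖F i‖ ^ 2 := by
      intro i
      rw [← Complex.re_sum, ← Finset.mul_sum]
      have : ∑ p ∈ G ×ˢ G, X i (p.1 + p.2) = F i ^ 2 := by
        rw [sq, hF, Finset.sum_mul_sum, ← Finset.sum_product']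
        exact Finset.sum_congr rfl fun p _ => hXadd i _ _
      rw [this, hw2, Complex.ofReal_re]
    simp only [hy]
    rw [← Finset.mul_sum, Finset.sum_comm]
    have h2 : ∀ i ∈ I, ∑ p ∈ G ×ˢ G,
        (ρ i / 8 * (w i * X i (p.1 + p.2)).re - 4 * (ρ i / 8) ^ 2) = T ^ 2 * (ρ i ^ 2 / 16) := by
      intro i _
      rw [Finset.sum_sub_distrib, ← Finset.mul_sum, h1, Finset.sum_const, Finset.card_product,
        nsmul_eq_mul]
      have h3 : ‖F i‖ ^ 2 = T ^ 2 * ρ i := by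
        simp only [hρ]
        field_simp
      rw [h3]
      push_cast
      rw [← hT]
      ring
    rw [Finset.sum_congr rfl h2, ← Finset.mul_sum, hM, ← Finset.sum_div]
    ring
  have hlow : T ^ 2 * Real.exp M ≤ ∑ p ∈ G ×ˢ G, Real.exp (y (p.1 + p.2)) := by
    have h1 : ∀ p ∈ G ×ˢ G, Real.exp M * (1 + (y (p.1 + p.2) - M)) ≤ Real.exp (y (p.1 + p.2)) := by
      intro p _
      have h2 := Real.add_one_le_exp (y (p.1 + p.2) - M)
      have h3 : Real.exp (y (p.1 + p.2)) = Real.exp M * Real.exp (y (p.1 + p.2) - M) := by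
        rw [← Real.exp_add]
        congr 1
        ring
      rw [h3]
      exact mul_le_mul_of_nonneg_left (by linarith) (Real.exp_pos _).le
    refine le_trans (le_of_eq ?_) (Finset.sum_le_sum h1)
    rw [← Finset.mul_sum, Finset.sum_add_distrib, Finset.sum_sub_distrib, hmean,
      Finset.sum_const, Finset.sum_const, Finset.card_product, nsmul_eq_mul, nsmul_eq_mul]
    push_cast
    rw [← hT]
    ring
  -- counting
  set x : ℕ := b ^ K with hx
  set rG : ℕ × ℕ → ℝ := fun q => (#{p ∈ G ×ˢ G | p.1 + p.2 = q} : ℝ) with hrG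
  have hmaps : ∀ p ∈ G ×ˢ G, p.1 + p.2 ∈ range (2 * x) ×ˢ range (2 * x) := by
    intro p hp
    rw [mem_product] at hp
    have h1 := mem_product.1 (hG hp.1)
    have h2 := mem_product.1 (hG hp.2)
    have h3 := mem_range.1 (hS h1.1)
    have h4 := mem_range.1 (hS h1.2)
    have h5 := mem_range.1 (hS h2.1)
    have h6 := mem_range.1 (hS h2.2)
    rw [mem_product, mem_range, mem_range, Prod.fst_add, Prod.snd_add]
    constructor <;> omega
  have hfib : ∑ p ∈ G ×ˢ G, Real.exp (y (p.1 + p.2)) =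
      ∑ q ∈ range (2 * x) ×ˢ range (2 * x), rG q * Real.exp (y q) := by
    rw [← Finset.sum_fiberwise_of_maps_to hmaps]
    refine Finset.sum_congr rfl fun q _ => ?_
    simp only [hrG]
    rw [Finset.sum_congr rfl (g := fun _ => Real.exp (y q)), Finset.sum_const, nsmul_eq_mul]
    intro p hp
    rw [(mem_filter.1 hp).2]
  have hrle : ∀ q, rG q ≤ (repF S q.1 : ℝ) * repF S q.2 := by
    intro q
    simp only [hrG]
    have : #{p ∈ G ×ˢ G | p.1 + p.2 = q} ≤
        #(({p ∈ S ×ˢ S | p.1 + p.2 = q.1} : Finset (ℕ × ℕ)) ×ˢ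
          ({p ∈ S ×ˢ S | p.1 + p.2 = q.2} : Finset (ℕ × ℕ))) := by
      refine Finset.card_le_card_of_injOn
        (fun p => ((p.1.1, p.2.1), (p.1.2, p.2.2))) ?_ ?_
      · intro p hp
        rw [mem_coe, mem_filter, mem_product] at hp
        obtain ⟨⟨h1, h2⟩, h3⟩ := hp
        have h1' := mem_product.1 (hG h1)
        have h2' := mem_product.1 (hG h2)
        rw [mem_coe, mem_product, mem_filter, mem_filter, mem_product, mem_product]
        refine ⟨⟨⟨h1'.1, h2'.1⟩, ?_⟩, ⟨h1'.2, h2'.2⟩, ?_⟩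
        · rw [← h3]
          rfl
        · rw [← h3]
          rfl
      · intro p _ p' _ he
        simp only [Prod.mk.injEq] at he
        obtain ⟨⟨e1, e2⟩, e3, e4⟩ := he
        exact Prod.ext (Prod.ext e1 e3) (Prod.ext e2 e4)
    rw [Finset.card_product] at this
    unfold repF
    exact_mod_cast this
  have hE : ∑ q ∈ range (2 * x) ×ˢ range (2 * x), rG q ^ 2 ≤
      (∑ n ∈ range (2 * x), ((repF S n : ℕ) : ℝ) ^ 2) ^ 2 := by
    rw [sq (∑ n ∈ range (2 * x), ((repF S n : ℕ) : ℝ) ^ 2), Finset.sum_mul_sum,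
      ← Finset.sum_product']
    refine Finset.sum_le_sum fun q _ => ?_
    rw [← mul_pow]
    refine pow_le_pow_left₀ ?_ (hrle q) 2
    simp only [hrG]
    exact Nat.cast_nonneg _
  have hPsum : ∑ q ∈ range (2 * x) ×ˢ range (2 * x), P (q.1 + q.2) q.1 ≤
      4 * x * (b : ℝ) ^ (K + 1) := by
    have h1 : ∑ q ∈ range (2 * x) ×ˢ range (2 * x), P (q.1 + q.2) q.1 ≤
        ∑ q ∈ range (4 * x) ×ˢ range (b ^ (K + 1)), P q.1 q.2 := by
      have hinj : Set.InjOn (fun q : ℕ × ℕ => (q.1 + q.2, q.1))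
          (range (2 * x) ×ˢ range (2 * x) : Finset (ℕ × ℕ)) := by
        intro q _ q' _ he
        simp only [Prod.mk.injEq] at he
        refine Prod.ext he.2 ?_
        omega
      rw [← Finset.sum_image (f := fun q : ℕ × ℕ => P q.1 q.2) hinj]
      refine Finset.sum_le_sum_of_subset_of_nonneg ?_ fun q _ _ => hP0 _ _
      intro q hq
      obtain ⟨q', hq', rfl⟩ := Finset.mem_image.1 hq
      rw [mem_product, mem_range, mem_range] at hq'
      rw [mem_product, mem_range, mem_range]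
      simp only
      refine ⟨by omega, hq'.1.trans_le ?_⟩
      rw [pow_succ, mul_comm, ← hx]
      exact Nat.mul_le_mul_left _ hb
    refine h1.trans (le_of_eq ?_)
    rw [Finset.sum_product]
    have h2 : ∀ m ∈ range (4 * x), ∑ c ∈ range (b ^ (K + 1)), P m c = (b : ℝ) ^ (K + 1) := by
      intro m _
      simp only [hP]
      refine prod_mean b (by omega) (fun i => ρ i / 8 * w i * ch m (θ i)) ψ (K + 1) I ?_ hψ
      exact hI.trans (Finset.range_subset_range.2 (by omega))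
    rw [Finset.sum_congr rfl h2, Finset.sum_const, card_range, nsmul_eq_mul]
    push_cast
    ring
  -- conclusion
  have hCS := Finset.sum_mul_sq_le_sq_mul_sq (range (2 * x) ×ˢ range (2 * x)) rG
    (fun q => Real.exp (y q))
  rw [← hfib] at hCS
  have h20 : ∑ q ∈ range (2 * x) ×ˢ range (2 * x), Real.exp (y q) ^ 2 ≤
      4 * x * (b : ℝ) ^ (K + 1) := by
    refine le_trans (Finset.sum_le_sum fun q _ => ?_) hPsum
    rw [← Real.exp_nat_mul]
    exact hexp q
  have h21 : (T ^ 2 * Real.exp M) ^ 2 ≤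
      (∑ n ∈ range (2 * x), ((repF S n : ℕ) : ℝ) ^ 2) ^ 2 * (4 * x * (b : ℝ) ^ (K + 1)) := by
    refine (pow_le_pow_left₀ (by positivity) hlow 2).trans (hCS.trans ?_)
    exact mul_le_mul hE h20 (Finset.sum_nonneg fun _ _ => sq_nonneg _) (sq_nonneg _)
  have h22 : (T ^ 2 * Real.exp M) ^ 2 = T ^ 4 * Real.exp (1 / 16 * ∑ i ∈ I,
      (‖F i‖ / T) ^ 4) := by
    rw [mul_pow, ← pow_mul, ← Real.exp_nat_mul]
    congr 2
    simp only [hM, hρ]
    rw [← mul_assoc]
    congr 1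
    · norm_num
    · refine Finset.sum_congr rfl fun i _ => ?_
      rw [← pow_mul]
  rw [h22] at h21
  refine h21.trans (le_of_eq ?_)
  rw [hx]
  push_cast
  ring

end Pool.Agent.Helper57.LJ
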