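import Pool.Agent.Helper57.LJ.Main
import Pool.Agent.Helper78.LJ.AllX

/-! Infinite form. -/

namespace Pool.Agent.Helper57.LJ

open Finset Filter
open Pool.Agent.Helper25.RC (repF rep below mem_below below_subset_range repF_below_le)

/-- a set with a choice function that can be guessed locally -/
theorem local_choice_inf (b : ℕ) (hb : 2 ≤ b) (w : ℕ) (ε δ : ℝ) (hε : 0 < ε) (hδ : 0 < δ) :
    ∃ c : ℝ, 0 < c ∧ ∀ (A D : Set ℕ) (f : ℕ → ℕ), (∀ n ∈ D, f n ≤ n ∧ f n ∈ A ∧ n - f n ∈ A) →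
      (∀ᶠ K : ℕ in atTop, δ * (b : ℝ) ^ K ≤ #(below D (b ^ K)) ∧
        ∃ (J : ℕ → ℕ → ℕ) (Q : ℕ → Finset ℕ), (∀ i < K, #(Q i) ≤ w ∧ DependsOn b (Q i) (J i)) ∧
          (1 / b + ε) * K * #(below D (b ^ K)) ≤
            ∑ n ∈ below D (b ^ K), (#{i ∈ range K | dig b i (f n) = J i n} : ℝ)) →
      ∀ᶠ K : ℕ in atTop, ((b : ℝ) ^ K) ^ (1 + c) ≤
        ∑ n ∈ range (2 * b ^ K), (rep A n : ℝ) ^ 2 := by
  obtain ⟨c, hc, K₀, h⟩ := local_choice b hb w ε δ hε hδ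
  refine ⟨c, hc, fun A D f hf hev => ?_⟩
  filter_upwards [hev, eventually_ge_atTop K₀] with K hK hK0
  obtain ⟨hd, J, Q, hQ, hhit⟩ := hK
  have h1 := h K hK0 (below A (b ^ K)) (below D (b ^ K)) f J Q (below_subset_range _ _)
    (below_subset_range _ _) hd (fun n hn => by
      obtain ⟨h2, h3⟩ := mem_below.1 hn
      obtain ⟨h4, h5, h6⟩ := hf n h3
      exact ⟨h4, mem_below.2 ⟨by omega, h5⟩, mem_below.2 ⟨by omega, h6⟩⟩) hQ hhit
  refine h1.trans (Finset.sum_le_sum fun n _ => ?_)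
  have : (repF (below A (b ^ K)) n : ℝ) ≤ rep A n := by exact_mod_cast repF_below_le A (b ^ K) n
  exact pow_le_pow_left₀ (Nat.cast_nonneg _) this 2

/-- mean square and maximum, for all `x` -/
theorem local_choice_all (b : ℕ) (hb : 2 ≤ b) (w : ℕ) (ε δ : ℝ) (hε : 0 < ε) (hδ : 0 < δ) :
    ∃ c : ℝ, 0 < c ∧ ∀ (A D : Set ℕ) (f : ℕ → ℕ), (∀ n ∈ D, f n ≤ n ∧ f n ∈ A ∧ n - f n ∈ A) →
      (∀ᶠ K : ℕ in atTop, δ * (b : ℝ) ^ K ≤ #(below D (b ^ K)) ∧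
        ∃ (J : ℕ → ℕ → ℕ) (Q : ℕ → Finset ℕ), (∀ i < K, #(Q i) ≤ w ∧ DependsOn b (Q i) (J i)) ∧
          (1 / b + ε) * K * #(below D (b ^ K)) ≤
            ∑ n ∈ below D (b ^ K), (#{i ∈ range K | dig b i (f n) = J i n} : ℝ)) →
      ∀ᶠ x : ℕ in atTop, (x : ℝ) ^ (1 + 2 * c) ≤ ∑ n ∈ range x, (rep A n : ℝ) ^ 2 ∧
        ∃ n < x, (x : ℝ) ^ c ≤ rep A n := by
  obtain ⟨c, hc, h⟩ := local_choice_inf b hb w ε δ hε hδ
  refine ⟨c / 4, by positivity, fun A D f hf hev => ?_⟩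
  have h1 := Pool.Agent.Helper78.LJ.all_x b hb c hc
    (fun x => ∑ n ∈ range x, (rep A n : ℝ) ^ 2) (fun x y hxy =>
      Finset.sum_le_sum_of_subset_of_nonneg (Finset.range_subset_range.2 hxy)
        fun _ _ _ => sq_nonneg _) (h A D f hf hev)
  filter_upwards [h1, eventually_gt_atTop 0] with x hx hx0
  have hx0' : (0 : ℝ) < x := by exact_mod_cast hx0
  have e1 : 1 + 2 * (c / 4) = 1 + c / 2 := by ring
  refine ⟨by rw [e1]; exact hx, ?_⟩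
  by_contra hcon
  push Not at hcon
  have h2 : ∑ n ∈ range x, (rep A n : ℝ) ^ 2 < ∑ _n ∈ range x, ((x : ℝ) ^ (c / 4)) ^ 2 := by
    refine Finset.sum_lt_sum_of_nonempty ⟨0, mem_range.2 hx0⟩ fun n hn => ?_
    exact pow_lt_pow_left₀ (hcon n (mem_range.1 hn)) (Nat.cast_nonneg _) two_ne_zero
  rw [Finset.sum_const, card_range, nsmul_eq_mul, ← Real.rpow_natCast, ← Real.rpow_mul hx0'.le]
    at h2
  have h3 : (x : ℝ) * (x : ℝ) ^ (c / 4 * ((2 : ℕ) : ℝ)) = (x : ℝ) ^ (1 + c / 2) := by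
    rw [Real.rpow_add hx0', Real.rpow_one]
    congr 2
    push_cast
    ring
  rw [h3] at h2
  exact absurd hx (not_le.2 h2)

end Pool.Agent.Helper57.LJ
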