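import Pool.Agent.Helper57.LJ.Wn

/-! Functions of few digits have small Wiener norm up to a small set. -/

namespace Pool.Agent.Helper57.LJ

open Finset
open Pool.Agent.Helper57.PC (Fr ch Wn norm_ch ch_add ch_nat_add ch_zero)

/-- smoothed indicator of a digit -/
noncomputable def U (b : ℕ) (ρ : ℝ) (q d n : ℕ) : ℂ :=
  ((#{j ∈ range (⌊ρ * (b : ℝ) ^ q⌋₊ + 1) | dig b q (n + j) = d} : ℕ) : ℂ) /
        ((⌊ρ * (b : ℝ) ^ q⌋₊ + 1 : ℕ) : ℂ)

lemma sum_norm_U {b : ℕ} (hb : 2 ≤ b) (ρ : ℝ) (q n : ℕ) : ∑ d ∈ range b, ‖U b ρ q d n‖ = 1 := by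
  unfold U
  simp_rw [norm_div, Complex.norm_natCast]
  rw [← Finset.sum_div, ← Nat.cast_sum]
  have h1 : ∑ d ∈ range b, #{j ∈ range (⌊ρ * (b : ℝ) ^ q⌋₊ + 1) | dig b q (n + j) = d} =
      #(range (⌊ρ * (b : ℝ) ^ q⌋₊ + 1)) := by
    rw [← Finset.card_eq_sum_card_fiberwise]
    intro j _
    rw [mem_coe, mem_range]
    exact dig_lt hb _ _
  rw [h1, card_range, div_self]
  positivity

lemma U_eq {b : ℕ} (hb : 2 ≤ b) {ρ : ℝ} {q n : ℕ}
    (h : n % b ^ q + ⌊ρ * (b : ℝ) ^ q⌋₊ < b ^ q) (d : ℕ) :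
    U b ρ q d n = if dig b q n = d then 1 else 0 := by
  unfold U
  have e : ∀ j ∈ range (⌊ρ * (b : ℝ) ^ q⌋₊ + 1), (dig b q (n + j) = d ↔ dig b q n = d) := by
    intro j hj
    rw [mem_range] at hj
    rw [dig_add_of_lt hb (by omega)]
  rw [Finset.filter_congr e]
  split_ifs with h1
  · rw [Finset.filter_true_of_mem fun _ _ => h1, card_range, div_self]
    have : (0 : ℝ) < ((⌊ρ * (b : ℝ) ^ q⌋₊ + 1 : ℕ) : ℝ) := by positivity
    exact_mod_cast this.ne'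
  · rw [Finset.filter_false_of_mem fun _ _ => h1, card_empty, Nat.cast_zero, zero_div]

/-- approximation of functions of few digits -/
theorem junta_approx {b : ℕ} (hb : 2 ≤ b) {ρ : ℝ}
    (hW : ∀ q d, Wn (1 / √ρ) (fun n => U b ρ q d n)) (Q : Finset ℕ) :
    ∀ g : ℕ → ℂ, DependsOn b Q g → (∀ n, ‖g n‖ ≤ 1) →
      ∃ u : ℕ → ℂ, Wn ((b / √ρ) ^ #Q) u ∧ ∀ n, ‖u n‖ ≤ 1 ∧
        ((∀ q ∈ Q, n % b ^ q + ⌊ρ * (b : ℝ) ^ q⌋₊ < b ^ q) → u n = g n) := by
  classical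
  induction Q using Finset.induction_on with
  | empty =>
    intro g hg hg1
    have hc : ∀ n, g n = g 0 := fun n => hg n 0 (by simp)
    refine ⟨fun _ => g 0, ?_, fun n => ⟨hg1 0, fun _ => (hc n).symm⟩⟩
    rw [card_empty, pow_zero]
    exact Wn.const (hg1 0)
  | insert q Q hq ih =>
    intro g hg hg1
    have h1 : ∀ d, ∃ u : ℕ → ℂ, d < b → Wn ((b / √ρ) ^ #Q) u ∧ ∀ n, ‖u n‖ ≤ 1 ∧
        ((∀ q ∈ Q, n % b ^ q + ⌊ρ * (b : ℝ) ^ q⌋₊ < b ^ q) → u n = g (setdig b q d n)) := by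
      intro d
      by_cases hd : d < b
      · obtain ⟨u, hu⟩ := ih (fun n => g (setdig b q d n)) (by
          intro m n hmn
          refine hg _ _ fun q' hq' => ?_
          rcases Finset.mem_insert.1 hq' with h | h
          · rw [h, dig_setdig_self hb hd, dig_setdig_self hb hd]
          · have hne : q' ≠ q := fun he => hq (he ▸ h)
            rw [dig_setdig_ne hb hd hne, dig_setdig_ne hb hd hne, hmn q' h])
          (fun n => hg1 _)
        exact ⟨u, fun _ => hu⟩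
      · exact ⟨0, fun h => absurd h hd⟩
    choose u hu using h1
    refine ⟨fun n => ∑ d ∈ range b, U b ρ q d n * u d n, ?_, fun n => ⟨?_, fun hn => ?_⟩⟩
    · have h2 := Wn.sum (s := range b) (Λ := 1 / √ρ * (b / √ρ) ^ #Q)
        (g := fun d n => U b ρ q d n * u d n) fun d hd =>
          Wn.mul (hW q d) (hu d (mem_range.1 hd)).1
      refine Wn.mono h2 (le_of_eq ?_)
      rw [card_range, Finset.card_insert_of_notMem hq, pow_succ]
      ring
    · refine (norm_sum_le _ _).trans ?_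
      rw [← sum_norm_U hb ρ q n]
      refine Finset.sum_le_sum fun d hd => ?_
      rw [norm_mul]
      exact mul_le_of_le_one_right (norm_nonneg _) ((hu d (mem_range.1 hd)).2 n).1
    · have h3 := U_eq hb (hn q (Finset.mem_insert_self _ _))
      simp only [h3, ite_mul, one_mul, zero_mul]
      rw [Finset.sum_ite_eq, if_pos (mem_range.2 (dig_lt hb q n)),
        ((hu (dig b q n) (dig_lt hb q n)).2 n).2 fun q' hq' =>
          hn q' (Finset.mem_insert_of_mem hq'), setdig_dig hb]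

/-- the number of integers near the end of a block -/
lemma card_bad {b : ℕ} (hb : 2 ≤ b) {ρ : ℝ} (hρ : 0 ≤ ρ) {q K : ℕ} (hq : q ≤ K) :
    (#{n ∈ range (b ^ K) | ¬ n % b ^ q + ⌊ρ * (b : ℝ) ^ q⌋₊ < b ^ q} : ℝ) ≤ ρ * (b : ℝ) ^ K := by
  set L := ⌊ρ * (b : ℝ) ^ q⌋₊ with hL
  have hq0 : 0 < b ^ q := by positivity
  have h1 : #{n ∈ range (b ^ K) | ¬ n % b ^ q + L < b ^ q} ≤
      #(range (b ^ (K - q)) ×ˢ range L) := by
    refine Finset.card_le_card_of_injOn (fun n => (n / b ^ q, b ^ q - 1 - n % b ^ q)) ?_ ?_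
    · intro n hn
      rw [mem_coe, mem_filter, mem_range, not_lt] at hn
      rw [mem_coe, mem_product, mem_range, mem_range]
      have h2 := Nat.mod_lt n hq0
      refine ⟨?_, show b ^ q - 1 - n % b ^ q < L by omega⟩
      rw [Nat.div_lt_iff_lt_mul hq0, ← pow_add, Nat.sub_add_cancel hq]
      exact hn.1
    · intro n _ n' _ he
      simp only [Prod.mk.injEq] at he
      have h2 := Nat.mod_lt n hq0
      have h3 := Nat.mod_lt n' hq0
      have h4 : n % b ^ q = n' % b ^ q := by omega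
      rw [← Nat.div_add_mod n (b ^ q), ← Nat.div_add_mod n' (b ^ q), he.1, h4]
  rw [card_product, card_range, card_range] at h1
  have h2 : (L : ℝ) ≤ ρ * (b : ℝ) ^ q := Nat.floor_le (by positivity)
  calc (#{n ∈ range (b ^ K) | ¬ n % b ^ q + L < b ^ q} : ℝ) ≤ ((b ^ (K - q) * L : ℕ) : ℝ) := by
        exact_mod_cast h1
    _ = (b : ℝ) ^ (K - q) * L := by push_cast; ring
    _ ≤ (b : ℝ) ^ (K - q) * (ρ * (b : ℝ) ^ q) := mul_le_mul_of_nonneg_left h2 (by positivity)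
    _ = ρ * ((b : ℝ) ^ (K - q) * (b : ℝ) ^ q) := by ring
    _ = _ := by rw [← pow_add, Nat.sub_add_cancel hq]

/-- restricting to the digits below `K` -/
lemma dependsOn_mod {α : Type*} {b : ℕ} (hb : 2 ≤ b) {Q : Finset ℕ} {g : ℕ → α}
    (hg : DependsOn b Q g) (K : ℕ) :
    DependsOn b (Q.filter (· < K)) (fun n => g (n % b ^ K)) := by
  intro m n h
  refine hg _ _ fun q hq => ?_
  by_cases hqK : q < K
  · rw [dig_mod hqK, dig_mod hqK]
    exact h q (mem_filter.2 ⟨hq, hqK⟩)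
  · have hK : 0 < b ^ K := by positivity
    rw [dig_eq_zero hb (not_lt.1 hqK) (Nat.mod_lt m hK),
      dig_eq_zero hb (not_lt.1 hqK) (Nat.mod_lt n hK)]

/-- approximation of a function of few digits in the mean -/
theorem junta_mean {b : ℕ} (hb : 2 ≤ b) {ρ : ℝ} (hρ : 0 < ρ) (hρ1 : ρ ≤ 1)
    (hW : ∀ q d, Wn (1 / √ρ) (fun n => U b ρ q d n)) {w K : ℕ} {Q : Finset ℕ} (hQ : #Q ≤ w)
    (g : ℕ → ℂ) (hg : DependsOn b Q g) (hg1 : ∀ n, ‖g n‖ ≤ 1) :
    ∃ u : ℕ → ℂ, Wn ((b / √ρ) ^ w) u ∧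
      ∑ n ∈ range (b ^ K), ‖g n - u n‖ ≤ 2 * w * ρ * (b : ℝ) ^ K := by
  classical
  set Q' := Q.filter (· < K) with hQ'
  have hQ'c : #Q' ≤ w := (Finset.card_filter_le _ _).trans hQ
  obtain ⟨u, hu1, hu2⟩ := junta_approx hb hW Q' (fun n => g (n % b ^ K))
    (dependsOn_mod hb hg K) (fun n => hg1 _)
  have hsq : √ρ ≤ 1 := by
    rw [Real.sqrt_le_one]
    exact hρ1
  have hsq0 : 0 < √ρ := Real.sqrt_pos.2 hρ
  have hb1 : (1 : ℝ) ≤ b / √ρ := by
    rw [le_div_iff₀ hsq0]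
    have : (2 : ℝ) ≤ b := by exact_mod_cast hb
    linarith
  refine ⟨u, Wn.mono hu1 (pow_le_pow_right₀ hb1 hQ'c), ?_⟩
  have h1 : ∀ n ∈ range (b ^ K), ‖g n - u n‖ ≤
      ∑ q ∈ Q', if ¬ n % b ^ q + ⌊ρ * (b : ℝ) ^ q⌋₊ < b ^ q then (2 : ℝ) else 0 := by
    intro n hn
    have hmod : n % b ^ K = n := Nat.mod_eq_of_lt (mem_range.1 hn)
    by_cases h : ∀ q ∈ Q', n % b ^ q + ⌊ρ * (b : ℝ) ^ q⌋₊ < b ^ q
    · have h2 := (hu2 n).2 h
      rw [hmod] at h2
      rw [h2, sub_self, norm_zero]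
      exact Finset.sum_nonneg fun q _ => by split_ifs <;> norm_num
    · push Not at h
      obtain ⟨q, hq, hq2⟩ := h
      have h3 : ‖g n - u n‖ ≤ 2 := by
        refine (norm_sub_le _ _).trans ?_
        have := hg1 n
        have := (hu2 n).1
        linarith
      refine h3.trans ?_
      have h4 := Finset.single_le_sum (f := fun q =>
        if ¬ n % b ^ q + ⌊ρ * (b : ℝ) ^ q⌋₊ < b ^ q then (2 : ℝ) else 0)
        (fun q _ => by split_ifs <;> norm_num) hq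
      rw [if_pos (not_lt.2 hq2)] at h4
      exact h4
  refine (Finset.sum_le_sum h1).trans ?_
  rw [Finset.sum_comm]
  have h5 : ∀ q ∈ Q', ∑ n ∈ range (b ^ K),
      (if ¬ n % b ^ q + ⌊ρ * (b : ℝ) ^ q⌋₊ < b ^ q then (2 : ℝ) else 0) ≤
      2 * (ρ * (b : ℝ) ^ K) := by
    intro q hq
    rw [← Finset.sum_filter, Finset.sum_const, nsmul_eq_mul, mul_comm]
    have := card_bad hb hρ.le (q := q) (K := K) (by
      have := (mem_filter.1 hq).2
      omega)
    linarith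
  refine (Finset.sum_le_sum h5).trans ?_
  rw [Finset.sum_const, nsmul_eq_mul]
  have h6 : (#Q' : ℝ) ≤ w := by exact_mod_cast hQ'c
  calc (#Q' : ℝ) * (2 * (ρ * (b : ℝ) ^ K)) ≤ w * (2 * (ρ * (b : ℝ) ^ K)) :=
        mul_le_mul_of_nonneg_right h6 (by positivity)
    _ = _ := by ring

end Pool.Agent.Helper57.LJ
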