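import Pool.Agent.Helper57.LJ.Junta
import Pool.Agent.Helper57.LJ.Exp
import Pool.Agent.Helper43.LJ.Maj
import Pool.Agent.Helper43.LJ.Lev
import Pool.Agent.Helper78.LJ.WnDigit
import Pool.Agent.Helper78.LJ.FinalNum

/-! A choice function whose digits can be guessed from few digits of the sum. -/

namespace Pool.Agent.Helper57.LJ

open Finset
open Pool.Agent.Helper57.PC (Fr ch Wn e norm_ch norm_e)
open Pool.Agent.Helper25.RC (repF)
open Pool.Agent.Helper43.LJ (maj floor_fract_dig level_freq)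
open Pool.Agent.Helper78.LJ (wn_digit final_num)

/-- a correlation with a function of small Wiener norm gives a correlation with a character -/
lemma exists_char {Λ : ℝ} {u : ℕ → ℂ} (hu : Wn Λ u) (D : Finset ℕ) (z : ℕ → ℂ) :
    ∃ θ : Fr, ‖∑ n ∈ D, u n * z n‖ ≤ Λ * ‖∑ n ∈ D, ch n θ * z n‖ := by
  obtain ⟨ι, hι, c, θ, h1, h2⟩ := hu
  have e : ∑ n ∈ D, u n * z n = ∑ i, c i * ∑ n ∈ D, ch n (θ i) * z n := by
    simp_rw [h2, Finset.sum_mul]
    rw [Finset.sum_comm]
    refine Finset.sum_congr rfl fun i _ => ?_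
    rw [Finset.mul_sum]
    exact Finset.sum_congr rfl fun n _ => by ring
  rcases isEmpty_or_nonempty ι with h | h
  · refine ⟨0, ?_⟩
    rw [e, Finset.univ_eq_empty, Finset.sum_empty, norm_zero]
    have : 0 ≤ Λ := le_trans (Finset.sum_nonneg fun _ _ => norm_nonneg _) h1
    positivity
  · obtain ⟨i, _, hi⟩ := Finset.exists_max_image (Finset.univ : Finset ι)
      (fun i => ‖∑ n ∈ D, ch n (θ i) * z n‖) Finset.univ_nonempty
    refine ⟨θ i, ?_⟩
    rw [e]
    refine (norm_sum_le _ _).trans ?_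
    have h3 : ∀ j ∈ (Finset.univ : Finset ι), ‖c j * ∑ n ∈ D, ch n (θ j) * z n‖ ≤
        ‖c j‖ * ‖∑ n ∈ D, ch n (θ i) * z n‖ := by
      intro j hj
      rw [norm_mul]
      exact mul_le_mul_of_nonneg_left (hi j hj) (norm_nonneg _)
    refine (Finset.sum_le_sum h3).trans ?_
    rw [← Finset.sum_mul]
    exact mul_le_mul_of_nonneg_right h1 (norm_nonneg _)

/-- sums of fourth powers -/
lemma pow_mean (I : Finset ℕ) (F : ℕ → ℝ) (hF : ∀ i ∈ I, 0 ≤ F i) {K : ℕ} (hK : 0 < K)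
    (hI : #I ≤ K) {a : ℝ} (ha : 0 ≤ a) (h : a * K ≤ ∑ i ∈ I, F i) :
    a ^ 4 * K ≤ ∑ i ∈ I, F i ^ 4 := by
  have hK0 : (0 : ℝ) < K := by exact_mod_cast hK
  have hS0 : 0 ≤ ∑ i ∈ I, F i ^ 4 := Finset.sum_nonneg fun _ _ => by positivity
  have h1 : (∑ i ∈ I, F i) ^ 4 ≤ (K : ℝ) ^ 3 * ∑ i ∈ I, F i ^ 4 := by
    rcases I.eq_empty_or_nonempty with h0 | h0
    · subst h0
      simp
    · have h2 := pow_sum_div_card_le_sum_pow (s := I) (f := F) hF 3
      have hc : (0 : ℝ) < #I := by exact_mod_cast Finset.card_pos.2 h0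
      rw [div_le_iff₀ (by positivity)] at h2
      refine h2.trans ?_
      rw [mul_comm]
      refine mul_le_mul_of_nonneg_right ?_ hS0
      exact pow_le_pow_left₀ hc.le (by exact_mod_cast hI) 3
  have h3 : (a * K) ^ 4 ≤ (K : ℝ) ^ 3 * ∑ i ∈ I, F i ^ 4 :=
    (pow_le_pow_left₀ (by positivity) h 4).trans h1
  have h4 : (K : ℝ) ^ 3 * (a ^ 4 * K) ≤ (K : ℝ) ^ 3 * ∑ i ∈ I, F i ^ 4 := by
    refine le_trans (le_of_eq ?_) h3
    ring
  exact le_of_mul_le_mul_left h4 (by positivity)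

/-- The main theorem, finite form. -/
theorem local_choice (b : ℕ) (hb : 2 ≤ b) (w : ℕ) (ε δ : ℝ) (hε : 0 < ε) (hδ : 0 < δ) :
    ∃ c : ℝ, 0 < c ∧ ∃ K₀ : ℕ, ∀ K ≥ K₀, ∀ (S D : Finset ℕ) (f : ℕ → ℕ) (J : ℕ → ℕ → ℕ)
      (Q : ℕ → Finset ℕ), S ⊆ range (b ^ K) → D ⊆ range (b ^ K) → δ * (b : ℝ) ^ K ≤ #D →
      (∀ n ∈ D, f n ≤ n ∧ f n ∈ S ∧ n - f n ∈ S) →
      (∀ i < K, #(Q i) ≤ w ∧ DependsOn b (Q i) (J i)) →
      (1 / b + ε) * K * #D ≤ ∑ n ∈ D, (#{i ∈ range K | dig b i (f n) = J i n} : ℝ) →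
      ((b : ℝ) ^ K) ^ (1 + c) ≤ ∑ n ∈ range (2 * b ^ K), ((repF S n : ℕ) : ℝ) ^ 2 := by
  classical
  have hb0 : (0 : ℝ) < b := by
    have : 0 < b := by omega
    exact_mod_cast this
  obtain ⟨H, c, hc⟩ := maj b hb (ε / 4) (by positivity)
  set Ks : Finset ℤ := Finset.Icc (-(H : ℤ)) H with hKs
  set M : ℝ := 1 + ∑ d ∈ range b, ∑ k ∈ Ks, ‖c d k‖ with hM
  have hM1 : 1 ≤ M := by
    rw [hM]
    have : 0 ≤ ∑ d ∈ range b, ∑ k ∈ Ks, ‖c d k‖ :=
      Finset.sum_nonneg fun _ _ => Finset.sum_nonneg fun _ _ => norm_nonneg _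
    linarith
  have hM0 : 0 < M := by linarith
  have hcM : ∀ d < b, ∀ k ∈ Ks, ‖c d k‖ ≤ M := by
    intro d hd k hk
    have h1 := Finset.single_le_sum (f := fun k => ‖c d k‖) (fun _ _ => norm_nonneg _) hk
    have h2 := Finset.single_le_sum (f := fun d => ∑ k ∈ Ks, ‖c d k‖)
      (fun _ _ => Finset.sum_nonneg fun _ _ => norm_nonneg _) (mem_range.2 hd)
    have h3 : ‖c d k‖ ≤ ∑ d ∈ range b, ∑ k ∈ Ks, ‖c d k‖ := h1.trans h2
    linarith
  set NK : ℝ := (#Ks : ℝ) + 1 with hNK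
  have hNK0 : 0 < NK := by positivity
  set ρ : ℝ := min 1 (ε * δ / (8 * NK * M * (w + 1))) with hρ
  have hρ0 : 0 < ρ := lt_min one_pos (by positivity)
  have hρ1 : ρ ≤ 1 := min_le_left _ _
  have hρ2 : NK * (M * (2 * w * ρ)) ≤ ε / 4 * δ := by
    have h1 : ρ ≤ ε * δ / (8 * NK * M * (w + 1)) := min_le_right _ _
    rw [le_div_iff₀ (by positivity)] at h1
    have h2 : NK * (M * (2 * w * ρ)) ≤ ρ * (8 * NK * M * (w + 1)) / 4 := by
      have : ρ * (8 * NK * M * (w + 1)) / 4 = NK * (M * (2 * w * ρ)) + 2 * ρ * NK * M := by ring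
      rw [this]
      have : 0 ≤ 2 * ρ * NK * M := by positivity
      linarith
    linarith
  have hW : ∀ q d, Wn (1 / √ρ) (fun n => U b ρ q d n) := fun q d => wn_digit b hb q d ρ hρ0 hρ1
  set Λ : ℝ := (b / √ρ) ^ w with hΛ
  have hsq0 : 0 < √ρ := Real.sqrt_pos.2 hρ0
  have hΛ0 : 0 < Λ := by positivity
  obtain ⟨ε', hε'⟩ : ∃ ε' : ℝ, ε' = ε / 4 / (NK * M * Λ) := ⟨_, rfl⟩
  have hε'0 : 0 < ε' := by
    rw [hε']
    positivity
  have hε'1 : ε' * (NK * M * Λ) = ε / 4 := by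
    rw [hε']
    exact div_mul_cancel₀ _ (by positivity)
  obtain ⟨c', hc', K₁, hK₁⟩ := final_num b hb δ (1 / 16 * (ε' / 2) ^ 4) hδ (by positivity)
  obtain ⟨K₂, hK₂⟩ := exists_nat_ge (2 * H / ε')
  refine ⟨c', hc', max (max K₁ K₂) (H + 1), fun K hK S D f J Q hS hD hDc hf hQ hhit => ?_⟩
  have hKK₁ : K₁ ≤ K := (le_max_left _ _).trans ((le_max_left _ _).trans hK)
  have hKK₂ : K₂ ≤ K := (le_max_right _ _).trans ((le_max_left _ _).trans hK)
  have hKH : H + 1 ≤ K := (le_max_right _ _).trans hK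
  have hK0 : 0 < K := by omega
  have hK0' : (0 : ℝ) < K := by exact_mod_cast hK0
  have hKε : 2 * H ≤ ε' * K := by
    have h1 : 2 * H / ε' ≤ K := hK₂.trans (by exact_mod_cast hKK₂)
    rw [div_le_iff₀ hε'0] at h1
    linarith
  set T : ℝ := (#D : ℝ) with hT
  have hT0 : 0 < T := lt_of_lt_of_le (by positivity) hDc
  -- the coefficients
  set C : ℕ → ℤ → ℕ → ℂ := fun i k n => if J i n < b then c (J i n) k else 0 with hC
  have hCM : ∀ i k, k ∈ Ks → ∀ n, ‖C i k n‖ ≤ M := by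
    intro i k hk n
    simp only [hC]
    split_ifs with h
    · exact hcM _ h k hk
    · rw [norm_zero]
      exact hM0.le
  set z : ℕ → ℤ → ℕ → ℂ := fun i k n => e (k * ((f n : ℝ) / (b : ℝ) ^ (i + 1))) with hz
  have hz1 : ∀ i k n, ‖z i k n‖ = 1 := fun i k n => norm_e _
  have hpt : ∀ i n, (if dig b i (f n) = J i n then (1 : ℝ) else 0) ≤
      (∑ k ∈ Ks, C i k n * z i k n).re := by
    intro i n
    by_cases h : J i n < b
    · have h1 := (hc (J i n) h).1 ((f n : ℝ) / (b : ℝ) ^ (i + 1))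
      rw [floor_fract_dig b hb] at h1
      simp only [hC, hz, if_pos h]
      exact h1
    · have h1 : dig b i (f n) ≠ J i n := fun h2 => h (h2 ▸ dig_lt hb _ _)
      rw [if_neg h1]
      simp only [hC, if_neg h, zero_mul, Finset.sum_const_zero, Complex.zero_re, le_refl]
  have h0mem : (0 : ℤ) ∈ Ks := by
    rw [hKs, Finset.mem_Icc]
    constructor <;> simp
  have hzero : ∀ i n, (C i 0 n * z i 0 n).re ≤ 1 / b + ε / 4 := by
    intro i n
    have hz0 : z i 0 n = 1 := by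
      simp only [hz]
      unfold PC.e
      simp
    rw [hz0, mul_one]
    simp only [hC]
    split_ifs with h
    · exact (hc _ h).2
    · rw [Complex.zero_re]
      positivity
  -- summing up
  have hsum1 : 3 * ε / 4 * K * T ≤
      ∑ k ∈ Ks.erase 0, ∑ i ∈ range K, ‖∑ n ∈ D, C i k n * z i k n‖ := by
    have h1 : ∑ n ∈ D, (#{i ∈ range K | dig b i (f n) = J i n} : ℝ) ≤
        ∑ n ∈ D, ∑ i ∈ range K, (∑ k ∈ Ks, C i k n * z i k n).re := by
      refine Finset.sum_le_sum fun n _ => ?_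
      rw [Finset.card_filter]
      push_cast
      exact Finset.sum_le_sum fun i _ => hpt i n
    have h2 : ∑ n ∈ D, ∑ i ∈ range K, (∑ k ∈ Ks, C i k n * z i k n).re =
        ∑ n ∈ D, ∑ i ∈ range K, (C i 0 n * z i 0 n).re +
        ∑ k ∈ Ks.erase 0, ∑ i ∈ range K, (∑ n ∈ D, C i k n * z i k n).re := by
      have h3 : ∀ n ∈ D, ∑ i ∈ range K, (∑ k ∈ Ks, C i k n * z i k n).re =
          ∑ i ∈ range K, (C i 0 n * z i 0 n).re +
            ∑ k ∈ Ks.erase 0, ∑ i ∈ range K, (C i k n * z i k n).re := by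
        intro n _
        rw [Finset.sum_comm (s := Ks.erase 0), ← Finset.sum_add_distrib]
        refine Finset.sum_congr rfl fun i _ => ?_
        rw [← Finset.add_sum_erase Ks _ h0mem, Complex.add_re, Complex.re_sum]
      rw [Finset.sum_congr rfl h3, Finset.sum_add_distrib]
      congr 1
      rw [Finset.sum_comm]
      refine Finset.sum_congr rfl fun k _ => ?_
      rw [Finset.sum_comm]
      refine Finset.sum_congr rfl fun i _ => ?_
      rw [Complex.re_sum]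
    have h4 : ∑ n ∈ D, ∑ i ∈ range K, (C i 0 n * z i 0 n).re ≤ (1 / b + ε / 4) * K * T := by
      have h5 : ∑ n ∈ D, ∑ i ∈ range K, (C i 0 n * z i 0 n).re ≤
          ∑ _n ∈ D, ∑ _i ∈ range K, (1 / (b : ℝ) + ε / 4) :=
        Finset.sum_le_sum fun n _ => Finset.sum_le_sum fun i _ => hzero i n
      refine h5.trans (le_of_eq ?_)
      rw [Finset.sum_const, Finset.sum_const, card_range, nsmul_eq_mul, nsmul_eq_mul, ← hT]
      ring
    have h6 : ∑ k ∈ Ks.erase 0, ∑ i ∈ range K, (∑ n ∈ D, C i k n * z i k n).re ≤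
        ∑ k ∈ Ks.erase 0, ∑ i ∈ range K, ‖∑ n ∈ D, C i k n * z i k n‖ :=
      Finset.sum_le_sum fun k _ => Finset.sum_le_sum fun i _ => Complex.re_le_norm _
    have h7 := hhit.trans h1
    rw [h2] at h7
    have h8 : (1 / (b : ℝ) + ε) * K * T = (1 / b + ε / 4) * K * T + 3 * ε / 4 * K * T := by ring
    rw [h8] at h7
    linarith
  -- approximation by characters
  have happ : ∀ i k, ∃ θ : Fr, i < K → k ∈ Ks →
      ‖∑ n ∈ D, C i k n * z i k n‖ ≤
        M * (Λ * ‖∑ n ∈ D, ch n θ * z i k n‖ + 2 * w * ρ * (b : ℝ) ^ K) := by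
    intro i k
    by_cases hik : i < K ∧ k ∈ Ks
    · obtain ⟨hi, hk⟩ := hik
      obtain ⟨u, hu1, hu2⟩ := junta_mean (K := K) hb hρ0 hρ1 hW (hQ i hi).1
        (fun n => C i k n / M) (by
          intro m n hmn
          simp only [hC]
          rw [(hQ i hi).2 m n hmn]) (by
          intro n
          rw [norm_div, Complex.norm_real, Real.norm_of_nonneg hM0.le, div_le_one hM0]
          exact hCM i k hk n)
      obtain ⟨θ, hθ⟩ := exists_char hu1 D (z i k)
      refine ⟨θ, fun _ _ => ?_⟩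
      have e1 : ∑ n ∈ D, C i k n * z i k n = M * (∑ n ∈ D, u n * z i k n +
          ∑ n ∈ D, (C i k n / M - u n) * z i k n) := by
        rw [← Finset.sum_add_distrib, Finset.mul_sum]
        refine Finset.sum_congr rfl fun n _ => ?_
        have : (M : ℂ) ≠ 0 := by exact_mod_cast hM0.ne'
        field_simp
        ring
      rw [e1, norm_mul, Complex.norm_real, Real.norm_of_nonneg hM0.le]
      refine mul_le_mul_of_nonneg_left ?_ hM0.le
      refine (norm_add_le _ _).trans (add_le_add hθ ?_)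
      refine (norm_sum_le _ _).trans ?_
      have e2 : ∀ n ∈ D, ‖(C i k n / M - u n) * z i k n‖ = ‖C i k n / M - u n‖ := by
        intro n _
        rw [norm_mul, hz1, mul_one]
      rw [Finset.sum_congr rfl e2]
      exact (Finset.sum_le_sum_of_subset_of_nonneg hD fun _ _ _ => norm_nonneg _).trans hu2
    · exact ⟨0, fun h1 h2 => absurd ⟨h1, h2⟩ hik⟩
  choose θ hθ using happ
  set Gh : ℤ → ℕ → ℝ := fun k i => ‖∑ n ∈ D, ch n (θ i k) * z i k n‖ with hGh
  have hGT : ∀ k i, Gh k i ≤ T := by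
    intro k i
    simp only [hGh]
    refine (norm_sum_le _ _).trans (le_of_eq ?_)
    have e2 : ∀ n ∈ D, ‖ch n (θ i k) * z i k n‖ = 1 := by
      intro n _
      rw [norm_mul, hz1, mul_one, norm_ch]
    rw [Finset.sum_congr rfl e2, Finset.sum_const, nsmul_eq_mul, mul_one]
  have hcard1 : (#(Ks.erase 0) : ℝ) ≤ NK := by
    have : #(Ks.erase 0) ≤ #Ks := Finset.card_le_card (Finset.erase_subset _ _)
    have : (#(Ks.erase 0) : ℝ) ≤ #Ks := by exact_mod_cast this
    linarith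
  have hsum2 : ε / 2 * K * T ≤ M * Λ * ∑ k ∈ Ks.erase 0, ∑ i ∈ range K, Gh k i := by
    have h1 : ∑ k ∈ Ks.erase 0, ∑ i ∈ range K, ‖∑ n ∈ D, C i k n * z i k n‖ ≤
        ∑ k ∈ Ks.erase 0, ∑ i ∈ range K, (M * Λ * Gh k i + M * (2 * w * ρ) * (b : ℝ) ^ K) := by
      refine Finset.sum_le_sum fun k hk => Finset.sum_le_sum fun i hi => ?_
      have h2 := hθ i k (mem_range.1 hi) (Finset.mem_of_mem_erase hk)
      simp only [hGh]
      linarith
    have h3 : ∑ k ∈ Ks.erase 0, ∑ i ∈ range K, (M * Λ * Gh k i + M * (2 * w * ρ) * (b : ℝ) ^ K) =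
        M * Λ * ∑ k ∈ Ks.erase 0, ∑ i ∈ range K, Gh k i +
          #(Ks.erase 0) * (K * (M * (2 * w * ρ) * (b : ℝ) ^ K)) := by
      simp_rw [Finset.sum_add_distrib, ← Finset.mul_sum, Finset.sum_const, card_range,
        nsmul_eq_mul]
      ring
    have h4 : (#(Ks.erase 0) : ℝ) * (K * (M * (2 * w * ρ) * (b : ℝ) ^ K)) ≤ ε / 4 * K * T := by
      calc (#(Ks.erase 0) : ℝ) * (K * (M * (2 * w * ρ) * (b : ℝ) ^ K)) ≤
            NK * (K * (M * (2 * w * ρ) * (b : ℝ) ^ K)) :=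
            mul_le_mul_of_nonneg_right hcard1 (by positivity)
        _ = (NK * (M * (2 * w * ρ))) * (K * (b : ℝ) ^ K) := by ring
        _ ≤ (ε / 4 * δ) * (K * (b : ℝ) ^ K) := mul_le_mul_of_nonneg_right hρ2 (by positivity)
        _ = ε / 4 * K * (δ * (b : ℝ) ^ K) := by ring
        _ ≤ ε / 4 * K * T := mul_le_mul_of_nonneg_left hDc (by positivity)
    have h5 := hsum1.trans h1
    rw [h3] at h5
    have h6 : 3 * ε / 4 * K * T = ε / 2 * K * T + ε / 4 * K * T := by ring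
    rw [h6] at h5
    linarith
  have hpig : ∃ k ∈ Ks.erase 0, ε' * K * T ≤ ∑ i ∈ range K, Gh k i := by
    by_contra hcon
    push Not at hcon
    have h1 : ∑ k ∈ Ks.erase 0, ∑ i ∈ range K, Gh k i ≤ #(Ks.erase 0) * (ε' * K * T) := by
      rw [← nsmul_eq_mul, ← Finset.sum_const]
      exact Finset.sum_le_sum fun k hk => (hcon k hk).le
    have h2 : M * Λ * ∑ k ∈ Ks.erase 0, ∑ i ∈ range K, Gh k i ≤ M * Λ * (NK * (ε' * K * T)) := by
      refine mul_le_mul_of_nonneg_left (h1.trans ?_) (by positivity)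
      exact mul_le_mul_of_nonneg_right hcard1 (by positivity)
    have h3 : M * Λ * (NK * (ε' * K * T)) = ε / 4 * K * T := by
      rw [← hε'1]
      ring
    rw [h3] at h2
    have h4 : 0 < ε / 4 * K * T := by positivity
    have h5 : ε / 2 * K * T = ε / 4 * K * T + ε / 4 * K * T := by ring
    rw [h5] at hsum2
    linarith
  obtain ⟨k, hk, hk2⟩ := hpig
  have hk0 : k ≠ 0 := (Finset.mem_erase.1 hk).1
  have hkH : |k| ≤ H := by
    have := Finset.mem_Icc.1 (Finset.mem_of_mem_erase hk)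
    exact abs_le.2 this
  obtain ⟨s, hs, ψ, hψ1, hψ2⟩ := level_freq b hb H k hk0 hkH
  -- shift of the levels
  have hsK : s ≤ K := by omega
  have hshift : ε' / 2 * K ≤ ∑ i ∈ range (K - s), Gh k (s + i) / T := by
    have h1 : ∑ i ∈ range K, Gh k i = ∑ i ∈ range s, Gh k i + ∑ i ∈ range (K - s), Gh k (s + i) := by
      rw [← Finset.sum_range_add, Nat.add_sub_cancel' hsK]
    have h2 : ∑ i ∈ range s, Gh k i ≤ H * T := by
      have h3 : ∑ i ∈ range s, Gh k i ≤ ∑ _i ∈ range s, T := Finset.sum_le_sum fun i _ => hGT k i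
      rw [Finset.sum_const, card_range, nsmul_eq_mul] at h3
      refine h3.trans (mul_le_mul_of_nonneg_right ?_ hT0.le)
      exact_mod_cast hs
    rw [← Finset.sum_div, le_div_iff₀ hT0]
    rw [h1] at hk2
    have h4 : H * T ≤ ε' / 2 * K * T := mul_le_mul_of_nonneg_right (by linarith) hT0.le
    linarith
  -- the pairs
  set G : Finset (ℕ × ℕ) := D.image fun n => (f n, n - f n) with hG
  have hinj : Set.InjOn (fun n => (f n, n - f n)) (D : Set ℕ) := by
    intro m hm n hn he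
    simp only [Prod.mk.injEq] at he
    have h1 := (hf m hm).1
    have h2 := (hf n hn).1
    omega
  have hGcard : #G = #D := Finset.card_image_of_injOn hinj
  have hGsub : G ⊆ S ×ˢ S := by
    intro p hp
    obtain ⟨n, hn, rfl⟩ := Finset.mem_image.1 hp
    exact mem_product.2 ⟨(hf n hn).2.1, (hf n hn).2.2⟩
  have hGne : G.Nonempty := by
    rw [← Finset.card_pos, hGcard]
    have : (0 : ℝ) < #D := hT0
    exact_mod_cast this
  have hexp := exp_pairs b K hb S hS G hGsub hGne (range (K - s))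
    (Finset.range_subset_range.2 (Nat.sub_le _ _)) (fun i => θ (s + i) k) ψ (fun i _ => hψ1 i)
  have hsumG : ∀ i, ‖∑ p ∈ G, ch (p.1 + p.2) (θ (s + i) k) * ch p.1 (ψ i)‖ = Gh k (s + i) := by
    intro i
    simp only [hGh]
    congr 1
    rw [hG, Finset.sum_image hinj]
    refine Finset.sum_congr rfl fun n hn => ?_
    simp only
    rw [Nat.add_sub_cancel' (hf n hn).1, hψ2]
    simp only [hz]
    rw [show i + s + 1 = s + i + 1 by ring]
  simp_rw [hsumG, hGcard] at hexp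
  rw [← hT] at hexp
  have hmean := pow_mean (range (K - s)) (fun i => Gh k (s + i) / T)
    (fun i _ => div_nonneg (norm_nonneg _) hT0.le) hK0 (by rw [card_range]; omega)
    (a := ε' / 2) (by positivity) hshift
  refine hK₁ K hKK₁ _ (Finset.sum_nonneg fun _ _ => sq_nonneg _) ?_
  refine le_trans ?_ hexp
  refine mul_le_mul ?_ ?_ (Real.exp_pos _).le (by positivity)
  · exact pow_le_pow_left₀ (by positivity) hDc 4
  · apply Real.exp_le_exp.2
    rw [mul_assoc]
    exact mul_le_mul_of_nonneg_left hmean (by norm_num)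

end Pool.Agent.Helper57.LJ
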