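import Pool.Agent.Helper57.LJ.Defs

/-! Wiener norms: sums and products; changing a digit. -/

namespace Pool.Agent.Helper57.LJ

open Finset
open Pool.Agent.Helper57.PC (Fr ch Wn norm_ch ch_add ch_nat_add ch_zero)

lemma Wn.nonneg {Λ : ℝ} {g : ℕ → ℂ} (h : Wn Λ g) : 0 ≤ Λ := by
  obtain ⟨ι, hι, c, θ, h1, _⟩ := h
  exact le_trans (Finset.sum_nonneg fun _ _ => norm_nonneg _) h1

lemma Wn.mono {Λ Λ' : ℝ} {g : ℕ → ℂ} (h : Wn Λ g) (hΛ : Λ ≤ Λ') : Wn Λ' g := by
  obtain ⟨ι, hι, c, θ, h1, h2⟩ := h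
  exact ⟨ι, hι, c, θ, h1.trans hΛ, h2⟩

lemma Wn.mul {Λ Λ' : ℝ} {g g' : ℕ → ℂ} (h : Wn Λ g) (h' : Wn Λ' g') :
    Wn (Λ * Λ') (fun n => g n * g' n) := by
  have hΛ := Wn.nonneg h
  obtain ⟨ι, hι, c, θ, h1, h2⟩ := h
  obtain ⟨ι', hι', c', θ', h1', h2'⟩ := h'
  refine ⟨ι × ι', inferInstance, fun p => c p.1 * c' p.2, fun p => θ p.1 + θ' p.2, ?_, fun n => ?_⟩
  · rw [Fintype.sum_prod_type]
    simp_rw [norm_mul]
    rw [← Finset.sum_mul_sum]
    exact mul_le_mul h1 h1' (Finset.sum_nonneg fun _ _ => norm_nonneg _) hΛ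
  · show g n * g' n = _
    rw [h2, h2', Finset.sum_mul_sum, Fintype.sum_prod_type]
    refine Finset.sum_congr rfl fun i _ => Finset.sum_congr rfl fun j _ => ?_
    rw [ch_add]
    ring

lemma Wn.add {Λ Λ' : ℝ} {g g' : ℕ → ℂ} (h : Wn Λ g) (h' : Wn Λ' g') :
    Wn (Λ + Λ') (fun n => g n + g' n) := by
  obtain ⟨ι, hι, c, θ, h1, h2⟩ := h
  obtain ⟨ι', hι', c', θ', h1', h2'⟩ := h'
  refine ⟨ι ⊕ ι', inferInstance, Sum.elim c c', Sum.elim θ θ', ?_, fun n => ?_⟩
  · rw [Fintype.sum_sum_type]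
    exact add_le_add h1 h1'
  · show g n + g' n = _
    rw [h2, h2', Fintype.sum_sum_type]
    rfl

lemma Wn.const {z : ℂ} (hz : ‖z‖ ≤ 1) : Wn 1 (fun _ => z) := by
  refine ⟨Unit, inferInstance, fun _ => z, fun _ => 0, by simpa using hz, fun n => ?_⟩
  simp [ch_zero]

lemma Wn.zero : Wn 0 (fun _ => 0) :=
  ⟨Empty, inferInstance, fun _ => 0, fun _ => 0, by simp, fun n => by simp⟩

lemma Wn.sum {s : Finset ℕ} {Λ : ℝ} {g : ℕ → ℕ → ℂ} (h : ∀ d ∈ s, Wn Λ (g d)) :
    Wn (#s * Λ) (fun n => ∑ d ∈ s, g d n) := by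
  classical
  induction s using Finset.induction_on with
  | empty => simpa using Wn.zero
  | insert d s hd ih =>
    have h1 := Wn.add (h d (Finset.mem_insert_self _ _))
      (ih fun d' hd' => h d' (Finset.mem_insert_of_mem hd'))
    rw [Finset.card_insert_of_notMem hd]
    push_cast
    have e : ((#s : ℝ) + 1) * Λ = Λ + #s * Λ := by ring
    rw [e]
    simp_rw [Finset.sum_insert hd]
    exact h1

/-- changing one digit -/
def setdig (b q d n : ℕ) : ℕ := n / b ^ (q + 1) * b ^ (q + 1) + (d * b ^ q + n % b ^ q)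

lemma setdig_low {b q d n : ℕ} (hb : 2 ≤ b) (hd : d < b) :
    d * b ^ q + n % b ^ q < b ^ (q + 1) := by
  have hq : 0 < b ^ q := by positivity
  have h1 := Nat.mod_lt n hq
  have h2 : (d + 1) * b ^ q ≤ b * b ^ q := Nat.mul_le_mul_right _ hd
  rw [pow_succ]
  nlinarith

lemma setdig_div {b q d n : ℕ} (hb : 2 ≤ b) (hd : d < b) :
    setdig b q d n / b ^ (q + 1) = n / b ^ (q + 1) := by
  have hq : 0 < b ^ (q + 1) := by positivity
  unfold setdig
  rw [add_comm, Nat.add_mul_div_right _ _ hq, Nat.div_eq_of_lt (setdig_low hb hd), zero_add]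

lemma setdig_mod {b q d n : ℕ} : setdig b q d n % b ^ q = n % b ^ q := by
  unfold setdig
  have e : n / b ^ (q + 1) * b ^ (q + 1) + (d * b ^ q + n % b ^ q) =
      n % b ^ q + (n / b ^ (q + 1) * b + d) * b ^ q := by
    rw [pow_succ]
    ring
  rw [e, Nat.add_mul_mod_self_right, Nat.mod_mod]

lemma dig_eq_mod_div (b q n : ℕ) : dig b q n = n % b ^ (q + 1) / b ^ q := by
  unfold dig
  rw [pow_succ, Nat.mod_mul_right_div_self]

lemma dig_setdig_self {b q d n : ℕ} (hb : 2 ≤ b) (hd : d < b) :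
    dig b q (setdig b q d n) = d := by
  have hq : 0 < b ^ q := by positivity
  rw [dig_eq_mod_div]
  unfold setdig
  rw [add_comm, Nat.add_mul_mod_self_right, Nat.mod_eq_of_lt (setdig_low hb hd), add_comm,
    Nat.add_mul_div_right _ _ hq, Nat.div_eq_of_lt (Nat.mod_lt _ hq), zero_add]

lemma dig_setdig_ne {b q q' d n : ℕ} (hb : 2 ≤ b) (hd : d < b) (h : q' ≠ q) :
    dig b q' (setdig b q d n) = dig b q' n := by
  rcases lt_or_gt_of_ne h with h | h
  · obtain ⟨r, hr⟩ := Nat.exists_eq_add_of_lt h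
    have e : ∀ m, dig b q' m = m % b ^ q % b ^ (q' + 1) / b ^ q' := by
      intro m
      rw [dig_eq_mod_div, Nat.mod_mod_of_dvd]
      rw [hr]
      exact pow_dvd_pow _ (by omega)
    rw [e, e, setdig_mod]
  · obtain ⟨r, hr⟩ := Nat.exists_eq_add_of_lt h
    have e : ∀ m, dig b q' m = m / b ^ (q + 1) / b ^ r % b := by
      intro m
      unfold dig
      rw [Nat.div_div_eq_div_mul, ← pow_add]
      congr 3
      omega
    rw [e, e, setdig_div hb hd]

lemma setdig_dig {b q n : ℕ} (hb : 2 ≤ b) : setdig b q (dig b q n) n = n := by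
  have hq : 0 < b ^ q := by positivity
  have h1 : n % b ^ (q + 1) = dig b q n * b ^ q + n % b ^ q := by
    have h2 := Nat.mod_add_div (n % b ^ (q + 1)) (b ^ q)
    rw [← dig_eq_mod_div, Nat.mod_mod_of_dvd _ (pow_dvd_pow b (Nat.le_succ q))] at h2
    rw [← h2]
    ring
  unfold setdig
  rw [← h1]
  have := Nat.div_add_mod n (b ^ (q + 1))
  rw [mul_comm] at this
  exact this

lemma dig_lt {b : ℕ} (hb : 2 ≤ b) (q n : ℕ) : dig b q n < b := Nat.mod_lt _ (by omega)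

/-- the digit does not change inside a block -/
lemma dig_add_of_lt {b q n j : ℕ} (hb : 2 ≤ b) (h : n % b ^ q + j < b ^ q) :
    dig b q (n + j) = dig b q n := by
  have hq : 0 < b ^ q := by positivity
  unfold dig
  congr 1
  have h1 := Nat.div_add_mod n (b ^ q)
  have e : n + j = (n % b ^ q + j) + (n / b ^ q) * b ^ q := by
    rw [mul_comm] at h1
    omega
  rw [e, Nat.add_mul_div_right _ _ hq, Nat.div_eq_of_lt h, zero_add]

lemma dig_mod {b K q n : ℕ} (h : q < K) : dig b q (n % b ^ K) = dig b q n := by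
  rw [dig_eq_mod_div, dig_eq_mod_div, Nat.mod_mod_of_dvd _ (pow_dvd_pow b (by omega))]

lemma dig_eq_zero {b K q n : ℕ} (hb : 2 ≤ b) (h : K ≤ q) (hn : n < b ^ K) : dig b q n = 0 := by
  unfold dig
  rw [Nat.div_eq_of_lt (hn.trans_le (Nat.pow_le_pow_right (by omega) h)), Nat.zero_mod]

end Pool.Agent.Helper57.LJ
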